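import Pool.Agent.helper38.VA.Spec

/-!
Project va (MP_a2a22c_al), row DNR.
-/

set_option autoImplicit false

namespace Pool.Agent.VA

open Matrix Module Pool.Agent.PR Pool.Agent.H48SL

theorem DNR_inj {n : ℕ} {a b : SLZ n} (h : stdM ℚ a = stdM ℚ b) : a = b := by
  apply Subtype.ext
  have h' : (a : Matrix (Fin n) (Fin n) ℤ).map (Int.castRingHom ℚ) =
      (b : Matrix (Fin n) (Fin n) ℤ).map (Int.castRingHom ℚ) := h
  ext i j
  have h2 := congrFun (congrFun h' i) j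
  rw [Matrix.map_apply, Matrix.map_apply] at h2
  exact Int.cast_injective h2

/-- the form of `r` -/
theorem DNR_form {n : ℕ} (M : MQ n) (k : Fin n → ℚ) (hk : k ≠ 0)
    (h : ∀ u, ∃ c : ℚ, M *ᵥ u = c • k) : ∃ ψ : Fin n → ℚ, M = vecMulVec k ψ := by
  obtain ⟨i₀, hi₀⟩ := Function.ne_iff.1 hk
  have hi₀' : k i₀ ≠ 0 := hi₀
  refine ⟨fun j => M i₀ j / k i₀, ?_⟩
  ext i j
  obtain ⟨c, hc⟩ := h (Pi.single j 1)
  rw [Matrix.mulVec_single_one] at hc
  have h1 := congrFun hc i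
  have h2 := congrFun hc i₀
  rw [Matrix.col_apply, Pi.smul_apply, smul_eq_mul] at h1 h2
  rw [vecMulVec_apply, h1, h2, mul_div_assoc, div_self hi₀', mul_one, mul_comm]

theorem DNR_KK {n : ℕ} (k ψ ψ' : Fin n → ℚ) (h : ψ ⬝ᵥ k = 0) :
    vecMulVec k ψ * vecMulVec k ψ' = 0 := by
  rw [vecMulVec_mul_vecMulVec, h, zero_smul, vecMulVec_zero]

theorem DNR_vv {n : ℕ} (k ψ v : Fin n → ℚ) : vecMulVec k ψ *ᵥ v = (ψ ⬝ᵥ v) • k := by
  rw [vecMulVec_mulVec]
  ext i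
  simp [mul_comm]

theorem DNR_inv {n : ℕ} (r : SLZ n) (k ψ : Fin n → ℚ) (h0 : ψ ⬝ᵥ k = 0)
    (h : stdM ℚ r = 1 + vecMulVec k ψ) : stdM ℚ r⁻¹ = 1 - vecMulVec k ψ := by
  have h1 : (1 + vecMulVec k ψ) * (1 - vecMulVec k ψ) = 1 := by
    rw [add_mul, one_mul, mul_sub, mul_one, DNR_KK k ψ ψ h0]
    abel
  calc stdM ℚ r⁻¹ = stdM ℚ r⁻¹ * ((1 + vecMulVec k ψ) * (1 - vecMulVec k ψ)) := by
        rw [h1, mul_one]
    _ = (stdM ℚ r⁻¹ * stdM ℚ r) * (1 - vecMulVec k ψ) := by rw [h, mul_assoc]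
    _ = 1 - vecMulVec k ψ := by rw [stdM_inv_mul, one_mul]

theorem DNR_zpow {n : ℕ} (r : SLZ n) (k ψ : Fin n → ℚ) (h0 : ψ ⬝ᵥ k = 0)
    (h : stdM ℚ r = 1 + vecMulVec k ψ) (m : ℤ) :
    stdM ℚ (r ^ m) = 1 + (m : ℚ) • vecMulVec k ψ := by
  have hK := DNR_KK k ψ ψ h0
  induction m using Int.induction_on with
  | zero => rw [zpow_zero, stdM_one, Int.cast_zero, zero_smul, add_zero]
  | succ m ih =>
    rw [_root_.zpow_add_one, stdM_mul, ih, h, add_mul, one_mul, mul_add, mul_one, smul_mul_assoc, hK,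
      smul_zero, add_zero]
    push_cast
    module
  | pred m ih =>
    rw [_root_.zpow_sub_one, stdM_mul, ih, DNR_inv r k ψ h0 h, add_mul, one_mul, mul_sub, mul_one,
      smul_mul_assoc, hK, smul_zero, sub_zero]
    push_cast
    module

theorem DNR_rank {n : ℕ} (k ψ : Fin n → ℚ) (hk : k ≠ 0) (hψ : ψ ≠ 0) :
    (vecMulVec k ψ).rank = 1 := by
  refine le_antisymm (Matrix.rank_vecMulVec_le k ψ) ?_
  rw [Nat.one_le_iff_ne_zero]
  intro h0
  have h1 : Module.finrank ℚ (LinearMap.range (vecMulVec k ψ).mulVecLin) = 0 := h0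
  have h2 := Submodule.finrank_eq_zero.1 h1
  rw [LinearMap.range_eq_bot] at h2
  obtain ⟨j, hj⟩ := Function.ne_iff.1 hψ
  have h3 := LinearMap.congr_fun h2 (Pi.single j 1)
  rw [Matrix.mulVecLin_apply, DNR_vv, LinearMap.zero_apply] at h3
  rcases smul_eq_zero.1 h3 with h4 | h4
  · apply hj
    rw [dotProduct_single_one] at h4
    exact h4
  · exact hk h4

theorem DNR_cube {n : ℕ} {W : Submodule ℚ (MQ n)} {k φ : Fin n → ℚ} (hD : DT W k φ) {X : MQ n}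
    (hX : X ∈ W) : (∀ v, ∃ c : ℚ, X *ᵥ (X *ᵥ v) = c • k) ∧ X ^ 3 = 0 := by
  have h1 : ∀ v, ∃ c : ℚ, X *ᵥ (X *ᵥ v) = c • k := by
    intro v
    apply hD.Xu X hX
    rw [dotProduct_mulVec, hD.fX X hX, zero_dotProduct]
  refine ⟨h1, ?_⟩
  have h2 : ∀ v, (X ^ 3) *ᵥ v = 0 := by
    intro v
    obtain ⟨c, hc⟩ := h1 v
    rw [pow_succ, pow_succ, pow_one, ← mulVec_mulVec, ← mulVec_mulVec]
    obtain ⟨c', hc'⟩ := h1 v
    have h3 : X *ᵥ (X *ᵥ (X *ᵥ v)) = 0 := by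
      rw [hc, mulVec_smul, hD.Xk X hX, smul_zero]
    exact h3
  ext i j
  have h3 := congrFun (h2 (Pi.single j 1)) i
  rw [mulVec_single_one] at h3
  exact h3

theorem DNR_exp {n : ℕ} {X : MQ n} (h : X ^ 3 = 0) :
    IsNilpotent.exp X = 1 + X + (1 / 2 : ℚ) • (X * X) := by
  rw [IsNilpotent.exp_eq_sum h, Finset.sum_range_succ, Finset.sum_range_succ,
    Finset.sum_range_succ, Finset.sum_range_zero]
  simp [Nat.factorial, pow_two]

/-- `a ^ i w = w + i X w` modulo `k` -/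
theorem DNR_pow {n : ℕ} {W : Submodule ℚ (MQ n)} {k φ : Fin n → ℚ} (hD : DT W k φ) {X : MQ n}
    (hX : X ∈ W) (a : SLZ n) (ha : stdM ℚ a = 1 + X + (1 / 2 : ℚ) • (X * X)) (w : Fin n → ℚ)
    (i : ℕ) : ∃ c : ℚ, stdM ℚ (a ^ i) *ᵥ w = w + (i : ℚ) • (X *ᵥ w) + c • k := by
  obtain ⟨c₀, hc₀⟩ := (DNR_cube hD hX).1 w
  have hk0 : X *ᵥ k = 0 := hD.Xk X hX
  have hak : stdM ℚ a *ᵥ k = k := by
    rw [ha, add_mulVec, add_mulVec, one_mulVec, smul_mulVec, ← mulVec_mulVec, hk0,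
      mulVec_zero, smul_zero, add_zero, add_zero]
  have haw : stdM ℚ a *ᵥ w = w + X *ᵥ w + (1 / 2 * c₀) • k := by
    rw [ha, add_mulVec, add_mulVec, one_mulVec, smul_mulVec, ← mulVec_mulVec, hc₀, smul_smul]
  have haX : stdM ℚ a *ᵥ (X *ᵥ w) = X *ᵥ w + c₀ • k := by
    rw [ha, add_mulVec, add_mulVec, one_mulVec, smul_mulVec, ← mulVec_mulVec, hc₀,
      mulVec_smul, hk0, smul_zero, smul_zero, add_zero]
  induction i with
  | zero =>
    refine ⟨0, ?_⟩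
    rw [pow_zero, stdM_one, one_mulVec, Nat.cast_zero, zero_smul, zero_smul, add_zero, add_zero]
  | succ i ih =>
    obtain ⟨c, hc⟩ := ih
    refine ⟨1 / 2 * c₀ + i * c₀ + c, ?_⟩
    rw [pow_succ', stdM_mul, ← mulVec_mulVec, hc, mulVec_add, mulVec_add, mulVec_smul,
      mulVec_smul, hak, haw, haX]
    push_cast
    module

/-- a nilpotent matrix (acting on rows) has only the eigenvalue `0` -/
theorem DNR_eig {n : ℕ} (X : MQ n) (h : X ^ 3 = 0) (ψ : Fin n → ℚ) (hψ : ψ ≠ 0) (c : ℚ)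
    (hc : ψ ᵥ* (1 + X + (1 / 2 : ℚ) • (X * X)) = c • ψ) : c = 1 := by
  have h1 : ψ ᵥ* (X + (1 / 2 : ℚ) • (X * X)) = (c - 1) • ψ := by
    rw [add_assoc, vecMul_add, vecMul_one] at hc
    rw [sub_smul, one_smul, ← hc]
    abel
  have h2 : (X + (1 / 2 : ℚ) • (X * X)) ^ 3 = 0 := by
    have e : (X + (1 / 2 : ℚ) • (X * X)) = X * (1 + (1 / 2 : ℚ) • X) := by
      rw [mul_add, mul_one, mul_smul_comm]
    have hcomm : Commute X (1 + (1 / 2 : ℚ) • X) :=
      (Commute.one_right X).add_right ((Commute.refl X).smul_right _)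
    rw [e, hcomm.mul_pow, h, zero_mul]
  have h3 : ∀ j : ℕ, ψ ᵥ* ((X + (1 / 2 : ℚ) • (X * X)) ^ j) = (c - 1) ^ j • ψ := by
    intro j
    induction j with
    | zero => rw [pow_zero, pow_zero, vecMul_one, one_smul]
    | succ j ih => rw [pow_succ, ← vecMul_vecMul, ih, smul_vecMul, h1, smul_smul, pow_succ]
  have h4 := h3 3
  rw [h2, vecMul_zero] at h4
  rcases smul_eq_zero.1 h4.symm with h5 | h5
  · have h6 : c - 1 = 0 := by
      have := pow_eq_zero_iff (n := 3) (by norm_num) |>.1 h5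
      exact this
    linarith
  · exact absurd h5 hψ

theorem DNR (hF1 : F1_stmt) : DNR_stmt := by
  intro n hn H hH W k φ hD X hX hX0 hE r hr hr1 hrk hru
  obtain ⟨a, haH, hexp⟩ := hE
  obtain ⟨hXX, hX3⟩ := DNR_cube hD hX
  have ha : stdM ℚ a = 1 + X + (1 / 2 : ℚ) • (X * X) := by rw [hexp, DNR_exp hX3]
  have hk0 : X *ᵥ k = 0 := hD.Xk X hX
  obtain ⟨ψ, hψ⟩ := DNR_form (stdM ℚ r - 1) k hD.k0 hru
  have hr' : stdM ℚ r = 1 + vecMulVec k ψ := by rw [← hψ]; abel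
  have hψ0 : ψ ≠ 0 := by
    rintro rfl
    apply hr1
    apply DNR_inj
    rw [hr', stdM_one, vecMulVec_zero, add_zero]
  have hψk : ψ ⬝ᵥ k = 0 := by
    rw [hr', add_mulVec, one_mulVec, DNR_vv] at hrk
    have h1 : (ψ ⬝ᵥ k) • k = 0 := by
      have h2 : k + (ψ ⬝ᵥ k) • k = k + 0 := by rw [hrk, add_zero]
      exact add_left_cancel h2
    exact (smul_eq_zero.1 h1).resolve_right hD.k0
  have hrank : (stdM ℚ r - 1).rank = 1 := by rw [hψ]; exact DNR_rank k ψ hD.k0 hψ0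
  by_cases hc : r * a = a * r
  · refine hF1 n hn H hH r hr a haH hc hrank ?_
    intro i hi m heq
    have hne : X * X ≠ 0 := hD.an X hX hX0
    have hw : ∃ w, X *ᵥ (X *ᵥ w) ≠ 0 := by
      by_contra hcon
      push Not at hcon
      apply hne
      ext i j
      have h3 := congrFun (hcon (Pi.single j 1)) i
      rw [mulVec_mulVec, mulVec_single_one] at h3
      exact h3
    obtain ⟨w, hw⟩ := hw
    obtain ⟨c, hc1⟩ := DNR_pow hD hX a ha w i
    rw [heq, DNR_zpow r k ψ hψk hr', add_mulVec, one_mulVec, smul_mulVec, DNR_vv,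
      add_assoc] at hc1
    have hc2 := add_left_cancel hc1
    have hc3 := congrArg (fun v => X *ᵥ v) hc2
    simp only [mulVec_add, mulVec_smul, hk0, smul_zero, add_zero] at hc3
    rcases smul_eq_zero.1 hc3.symm with h5 | h5
    · have : (i : ℚ) ≠ 0 := by exact_mod_cast hi.ne'
      exact this h5
    · exact hw h5
  · have hak : stdM ℚ a *ᵥ k = k := by
      rw [ha, add_mulVec, add_mulVec, one_mulVec, smul_mulVec, ← mulVec_mulVec, hk0,
        mulVec_zero, smul_zero, add_zero, add_zero]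
    have hak' : stdM ℚ a⁻¹ *ᵥ k = k := by
      have h1 : stdM ℚ a⁻¹ *ᵥ (stdM ℚ a *ᵥ k) = k := by
        rw [mulVec_mulVec, stdM_inv_mul, one_mulVec]
      rwa [hak] at h1
    have hu : stdM ℚ (a * r * a⁻¹) = 1 + vecMulVec k (ψ ᵥ* stdM ℚ a⁻¹) := by
      rw [stdM_mul, stdM_mul, hr', mul_add, add_mul, mul_one, stdM_mul_inv, mul_vecMulVec,
        vecMulVec_mul, hak]
    have hψ'k : (ψ ᵥ* stdM ℚ a⁻¹) ⬝ᵥ k = 0 := by
      rw [← dotProduct_mulVec, hak', hψk]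
    refine hF1 n hn H hH r hr (a * r * a⁻¹) (H.mul_mem (H.mul_mem haH hr) (H.inv_mem haH)) ?_
      hrank ?_
    · apply DNR_inj
      rw [stdM_mul ℚ r (a * r * a⁻¹), stdM_mul ℚ (a * r * a⁻¹) r, hu, hr', mul_add, mul_one, add_mul, one_mul,
        DNR_KK k ψ _ hψk, mul_add, mul_one, add_mul, one_mul, DNR_KK k _ ψ hψ'k]
      abel
    · intro i hi m heq
      have h1 : stdM ℚ ((a * r * a⁻¹) ^ (i : ℤ)) = stdM ℚ (r ^ m) := by
        rw [zpow_natCast, heq]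
      rw [DNR_zpow _ k _ hψ'k hu, DNR_zpow r k ψ hψk hr'] at h1
      have h2 := add_left_cancel h1
      have hiQ : (i : ℚ) ≠ 0 := by exact_mod_cast hi.ne'
      have h3 : ((i : ℤ) : ℚ) • (ψ ᵥ* stdM ℚ a⁻¹) = (m : ℚ) • ψ := by
        obtain ⟨i₀, hi₀⟩ := Function.ne_iff.1 hD.k0
        have hi₀' : k i₀ ≠ 0 := hi₀
        ext j
        have h4 := congrFun (congrFun h2 i₀) j
        rw [Matrix.smul_apply, Matrix.smul_apply, vecMulVec_apply, vecMulVec_apply, smul_eq_mul,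
          smul_eq_mul] at h4
        rw [Pi.smul_apply, Pi.smul_apply, smul_eq_mul, smul_eq_mul]
        have h5 : k i₀ * (((i : ℤ) : ℚ) * (ψ ᵥ* stdM ℚ a⁻¹) j - (m : ℚ) * ψ j) = 0 := by
          linear_combination h4
        have h6 := (mul_eq_zero.1 h5).resolve_left hi₀'
        linarith
      have hiQ' : ((i : ℤ) : ℚ) ≠ 0 := by exact_mod_cast hiQ
      -- multiply by `a` on the right
      have h4 : ((i : ℤ) : ℚ) • ψ = (m : ℚ) • (ψ ᵥ* stdM ℚ a) := by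
        have h5 := congrArg (fun v => v ᵥ* stdM ℚ a) h3
        simp only [smul_vecMul, vecMul_vecMul, stdM_inv_mul, vecMul_one] at h5
        exact h5
      have hm : (m : ℚ) ≠ 0 := by
        intro h0
        rw [h0, zero_smul] at h4
        rcases smul_eq_zero.1 h4 with h5 | h5
        · exact hiQ' h5
        · exact hψ0 h5
      have h5 : ψ ᵥ* (1 + X + (1 / 2 : ℚ) • (X * X)) = ((m : ℚ)⁻¹ * ((i : ℤ) : ℚ)) • ψ := by
        rw [← ha, mul_smul, h4, smul_smul, inv_mul_cancel₀ hm, one_smul]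
      have h6 := DNR_eig X hX3 ψ hψ0 _ h5
      rw [← ha, h6, one_smul] at h5
      -- so `ψ a = ψ`, `a r = r a`
      have h7 : ψ ᵥ* stdM ℚ a⁻¹ = ψ := by
        have h8 := congrArg (fun v => v ᵥ* stdM ℚ a⁻¹) h5
        simp only [vecMul_vecMul, stdM_mul_inv, vecMul_one] at h8
        exact h8.symm
      rw [h7, ← hr'] at hu
      have h9 := DNR_inj hu
      apply hc
      have h10 : a * r * a⁻¹ * a = r * a := by rw [h9]
      rw [inv_mul_cancel_right] at h10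
      exact h10.symm

end Pool.Agent.VA
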